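import Pool.Agent.Lib.MP_c5d73d_lc.F.AssemblyW
import Pool.Agent.Lib.MP_c5d73d_lc.T.Bridge

/-!
# COVTW: the typed covering theorem from a weakly compact cardinal
-/

universe u

open Cardinal

namespace Pool.Agent.Lib.MP_c5d73d_lc.F.H4

open Pool.Agent.Lib.MP_100a6c_lc
open Pool.Agent.Lib.MP_c5d73d_lc.F

theorem covtw : CovtwStatement.{u} := fun B _ κ hκ hB hT hr U hU =>
  T.covtW κ hκ B hB hT hr U hU

end Pool.Agent.Lib.MP_c5d73d_lc.F.H4
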