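import Pool.Agent.Lib.MP_c5d73d_lc.F.AssemblyW
import Pool.Agent.Lib.MP_c5d73d_lc.I.H74.RO
import Pool.Agent.Lib.MP_c5d73d_lc.T.Bridge

/-!
# ITERW: the finite support iteration of length an inaccessible cardinal
-/

universe u

open Cardinal

namespace Pool.Agent.Lib.MP_c5d73d_lc.F.H4

open Pool.Agent.Lib.MP_100a6c_lc
open Pool.Agent.Lib.MP_c5d73d_lc.F

/-- Finitely supported functions. -/
theorem mk_finsupp_le (I : Type u) (z : I) (hI : ℵ₀ ≤ #I) :
    #{p : I → I // {i | p i ≠ z}.Finite} ≤ #I := by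
  classical
  let F : {p : I → I // {i | p i ≠ z}.Finite} → Finset (I × I) := fun p =>
    p.2.toFinset.image fun i => (i, p.1 i)
  have hF : Function.Injective F := by
    intro p q h
    apply Subtype.ext
    funext i
    have h1 : ∀ (p : {p : I → I // {i | p i ≠ z}.Finite}) (i x : I),
        (i, x) ∈ F p ↔ p.1 i ≠ z ∧ p.1 i = x := by
      intro p i x
      simp only [F, Finset.mem_image, Set.Finite.mem_toFinset, Set.mem_ofPred_eq, Prod.mk.injEq]
      constructor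
      · rintro ⟨j, hj, rfl, rfl⟩
        exact ⟨hj, rfl⟩
      · rintro ⟨h, rfl⟩
        exact ⟨i, h, rfl, rfl⟩
    by_cases hp : p.1 i = z
    · by_cases hq : q.1 i = z
      · rw [hp, hq]
      · exact (h1 p i _).1 (h ▸ (h1 q i _).2 ⟨hq, rfl⟩) |>.2
    · exact ((h1 q i _).1 (h ▸ (h1 p i _).2 ⟨hp, rfl⟩) |>.2).symm
  have : Infinite I := Cardinal.infinite_iff.2 hI
  calc #{p : I → I // {i | p i ≠ z}.Finite} ≤ #(Finset (I × I)) := mk_le_of_injective hF
    _ = #(I × I) := mk_finset_of_infinite _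
    _ = #I := by simp [mul_eq_self hI]

theorem mk_cnd_le (I : Type u) (z : I) (g : I → NameI I) (hI : ℵ₀ ≤ #I) : #(Cnd z g) ≤ #I := by
  refine le_trans ?_ (mk_finsupp_le I z hI)
  exact mk_le_of_injective
    (f := fun p : Cnd z g => (⟨p.1, p.2.1⟩ : {p : I → I // {i | p i ≠ z}.Finite}))
    fun p q h => Subtype.ext (Subtype.mk.injEq .. ▸ h)

theorem pccc_of_rccc {P : Type u} [Preorder P] (h : RCCC (fun p q : P => p ≤ q)) :
    I.PCCC P := by
  intro A hA
  rw [← Cardinal.le_aleph0_iff_set_countable]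
  refine h A (fun t => t.1) fun t t' htt' hc => ?_
  exact hA t.2 t'.2 (fun e => htt' (Subtype.ext e)) hc

theorem iterw (hO : OrdiStatement.{u}) (hC : ItcccStatement.{u}) (hR : RoapiStatement.{u})
    (hB : BookStatement.{u}) (hT : IttmaStatement.{u}) : IterwStatement.{u} := by
  intro κ hκ
  have hω : ℵ₀ < κ := hκ.aleph0_lt
  have hI : #κ.ord.ToType = κ := mk_ord_toType κ
  have hne : Nonempty κ.ord.ToType := by
    rw [← mk_ne_zero_iff, hI]
    exact (aleph0_pos.trans hω).ne'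
  obtain ⟨z⟩ := hne
  have h1 : ℵ₀ < #κ.ord.ToType := by rwa [hI]
  have h2 : (#κ.ord.ToType).IsRegular := by rw [hI]; exact hκ.isRegular
  have h3 : ∀ c < #κ.ord.ToType, 2 ^ c < #κ.ord.ToType := by
    rw [hI]
    exact fun c hc => hκ.isStrongLimit.isStrongPrelimit hc
  have h4 : ∀ i : κ.ord.ToType, #(Set.Iio i) < #κ.ord.ToType := by
    intro i
    exact mk_Iio_lt i (by rw [hI]; exact (Ordinal.type_toType _).symm)
  obtain ⟨g, hg, hg'⟩ := hB κ.ord.ToType z h1 h2 h3 h4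
  have hz : ∀ i, z ∈ (g i).C := fun i => (hg i).z_mem
  obtain ⟨hr, ht, -⟩ := hO κ.ord.ToType z g hz
  have htma := hT κ.ord.ToType z g h1 h2 h4 hg hg' (hr ⊤) (ht ⊤)
  let _ := itPre z g (hr ⊤) (ht ⊤)
  have hccc : RCCC (fun p q : Cnd z g => p ≤ q) := hC κ.ord.ToType z g hz ⊤
  obtain ⟨-, -, -, hne, -, -, hcc, -⟩ := hR (Cnd z g)
  have hcard : #(H1.RO (Cnd z g)) ≤ κ := by
    refine (I.H74.roc _ (pccc_of_rccc hccc)).2.2 κ (T.inaccessible_pow hκ) hω.le ?_
    exact (mk_cnd_le _ z g (by rw [hI]; exact hω.le)).trans hI.le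
  refine ⟨H1.RO (Cnd z g), inferInstance, ?_, hcc hccc, ?_, ?_⟩
  · intro h
    let p : Cnd z g := ⟨fun _ => z, by simp, hz⟩
    exact hne p (le_bot_iff.1 (h ▸ le_top))
  · rwa [hI] at htma
  · calc #(Rl (H1.RO (Cnd z g))) = #(H1.RO (Cnd z g)) ^ (ℵ₀ : Cardinal.{u}) := by
          simp [Rl]
      _ ≤ κ ^ (ℵ₀ : Cardinal.{u}) := Cardinal.power_le_power_right hcard
      _ ≤ κ := T.inaccessible_pow hκ

end Pool.Agent.Lib.MP_c5d73d_lc.F.H4
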